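import Mathlib

/-!
# The trajectory of `3` under `x ↦ (7x+1)/2` (odd), `x ↦ x/2` (even)

`x n` is the trajectory, `j n` the number of odd terms among `x 0, ..., x (n-1)` and
`r n = 7^(j n) / 2^n`.
-/

set_option autoImplicit false

open Filter Finset

namespace Pool.Agent.Results.MP_625168_nt.Dichotomy

/-- The map `F`: `x ↦ (7x+1)/2` for odd `x`, `x ↦ x/2` for even `x`. -/
def F (x : ℕ) : ℕ := if x % 2 = 1 then (7 * x + 1) / 2 else x / 2

/-- The trajectory of `3` under `F`. -/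
def x (n : ℕ) : ℕ := F^[n] 3

/-- The number of odd terms among `x 0, ..., x (n-1)`. -/
def j (n : ℕ) : ℕ := ((range n).filter fun i => x i % 2 = 1).card

/-- The growth factor `r n = 7^(j n) / 2^n`. -/
noncomputable def r (n : ℕ) : ℝ := 7 ^ j n / 2 ^ n

lemma x_succ (n : ℕ) : x (n + 1) = F (x n) := Function.iterate_succ_apply' F n 3

lemma F_pos {z : ℕ} (hz : 0 < z) : 0 < F z := by
  unfold F
  split_ifs with h <;> omega

lemma x_pos (n : ℕ) : 0 < x n := by
  induction n with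
  | zero => simp [x]
  | succ n ih => rw [x_succ]; exact F_pos ih

lemma two_x_odd {n : ℕ} (h : x n % 2 = 1) : 2 * x (n + 1) = 7 * x n + 1 := by
  rw [x_succ, F, if_pos h]; omega

lemma two_x_even {n : ℕ} (h : ¬ x n % 2 = 1) : 2 * x (n + 1) = x n := by
  rw [x_succ, F, if_neg h]; omega

lemma j_odd {n : ℕ} (h : x n % 2 = 1) : j (n + 1) = j n + 1 := by
  unfold j
  rw [range_add_one, filter_insert, if_pos h, card_insert_of_notMem (by simp)]

lemma j_even {n : ℕ} (h : ¬ x n % 2 = 1) : j (n + 1) = j n := by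
  unfold j
  rw [range_add_one, filter_insert, if_neg h]

lemma r_pos (n : ℕ) : 0 < r n := by unfold r; positivity

/-- `y n = x n / r n`. -/
noncomputable def y (n : ℕ) : ℝ := (x n : ℝ) / r n

lemma j_zero : j 0 = 0 := by rfl

lemma x_zero : x 0 = 3 := rfl

lemma y_zero : y 0 = 3 := by
  unfold y r
  rw [j_zero, x_zero]
  norm_num

lemma x_eq (n : ℕ) : (x n : ℝ) = r n * y n := by
  unfold y; field_simp [(r_pos n).ne']

lemma y_odd {n : ℕ} (h : x n % 2 = 1) : y (n + 1) = y n * (1 + 1 / (7 * (x n : ℝ))) := by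
  have hx : (0 : ℝ) < x n := by exact_mod_cast x_pos n
  have h2 : (2 : ℝ) * x (n + 1) = 7 * x n + 1 := by exact_mod_cast two_x_odd h
  have h3 : (x (n + 1) : ℝ) = (7 * x n + 1) / 2 := by linarith
  unfold y r
  rw [j_odd h, h3]
  field_simp
  ring

lemma y_even {n : ℕ} (h : ¬ x n % 2 = 1) : y (n + 1) = y n := by
  have h2 : (2 : ℝ) * x (n + 1) = x n := by exact_mod_cast two_x_even h
  have h3 : (x (n + 1) : ℝ) = x n / 2 := by linarith
  unfold y r
  rw [j_even h, h3]
  field_simp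
  ring

lemma y_ge (n : ℕ) : 3 ≤ y n := by
  induction n with
  | zero => rw [y_zero]
  | succ n ih =>
    by_cases h : x n % 2 = 1
    · rw [y_odd h]
      have hx : (0 : ℝ) < x n := by exact_mod_cast x_pos n
      have h1 : (0 : ℝ) ≤ 1 / (7 * (x n : ℝ)) := by positivity
      nlinarith
    · rw [y_even h]; exact ih

/-- `3 r(n) ≤ x_n`. -/
lemma three_r_le (n : ℕ) : 3 * r n ≤ x n := by
  rw [x_eq]
  have := y_ge n
  have := r_pos n
  nlinarith

lemma y_le (n : ℕ) : y n ≤ 3 * (8 / 7 : ℝ) ^ j n := by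
  induction n with
  | zero => rw [y_zero, j_zero]; norm_num
  | succ n ih =>
    by_cases h : x n % 2 = 1
    · rw [y_odd h, j_odd h, pow_succ]
      have hx : (1 : ℝ) ≤ x n := by exact_mod_cast x_pos n
      have h1 : 1 / (7 * (x n : ℝ)) ≤ 1 / 7 := by
        apply one_div_le_one_div_of_le <;> linarith
      have h0 : (0 : ℝ) ≤ 1 / (7 * (x n : ℝ)) := by positivity
      have h3 := y_ge n
      calc y n * (1 + 1 / (7 * (x n : ℝ))) ≤ (3 * (8 / 7 : ℝ) ^ j n) * (8 / 7) := by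
            apply mul_le_mul ih (by linarith) (by linarith) (by positivity)
        _ = _ := by ring
    · rw [y_even h, j_even h]; exact ih

/-- At least about one third of the steps are odd. -/
lemma n_le (n : ℕ) : n ≤ 3 * j n + 1 := by
  have h1 : (1 : ℝ) ≤ x n := by exact_mod_cast x_pos n
  rw [x_eq] at h1
  have h2 : r n * y n ≤ r n * (3 * (8 / 7 : ℝ) ^ j n) :=
    mul_le_mul_of_nonneg_left (y_le n) (r_pos n).le
  have h3 : r n * (3 * (8 / 7 : ℝ) ^ j n) = 3 * 8 ^ j n / 2 ^ n := by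
    unfold r
    rw [div_pow]
    field_simp
  have h4 : (1 : ℝ) ≤ 3 * 8 ^ j n / 2 ^ n := by linarith
  rw [le_div_iff₀ (by positivity), one_mul] at h4
  have h5 : (2 : ℕ) ^ n ≤ 3 * 8 ^ j n := by exact_mod_cast h4
  have h6 : (2 : ℕ) ^ n < 2 ^ (3 * j n + 2) := by
    have : (2 : ℕ) ^ (3 * j n + 2) = 4 * 8 ^ j n := by
      rw [pow_add, pow_mul]; norm_num; ring
    have hp : 0 < (8 : ℕ) ^ j n := by positivity
    omega
  have := (Nat.pow_lt_pow_iff_right (by norm_num : 1 < 2)).1 h6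
  omega

/-! ### The case of distinct terms -/

lemma y_le_exp (n : ℕ) :
    y n ≤ 3 * Real.exp (1 / 7 * ∑ i ∈ (range n).filter (fun i => x i % 2 = 1), 1 / (x i : ℝ)) := by
  induction n with
  | zero => simp [y_zero]
  | succ n ih =>
    by_cases h : x n % 2 = 1
    · rw [y_odd h, range_add_one, filter_insert, if_pos h, sum_insert (by simp),
        mul_add (1 / 7 : ℝ), Real.exp_add]
      have hx : (0 : ℝ) < x n := by exact_mod_cast x_pos n
      have h1 : 1 + 1 / (7 * (x n : ℝ)) ≤ Real.exp (1 / 7 * (1 / (x n : ℝ))) := by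
        have := Real.add_one_le_exp (1 / 7 * (1 / (x n : ℝ)))
        have he : 1 / (7 * (x n : ℝ)) = 1 / 7 * (1 / (x n : ℝ)) := by field_simp
        linarith
      have h0 : (0 : ℝ) ≤ 1 / (7 * (x n : ℝ)) := by positivity
      calc y n * (1 + 1 / (7 * (x n : ℝ)))
          ≤ (3 * Real.exp (1 / 7 * ∑ i ∈ (range n).filter (fun i => x i % 2 = 1),
              1 / (x i : ℝ))) * Real.exp (1 / 7 * (1 / (x n : ℝ))) := by
            apply mul_le_mul ih h1 (by linarith) (by positivity)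
        _ = _ := by ring
    · rw [y_even h, range_add_one, filter_insert, if_neg h]; exact ih

/-- After the first term all terms are `1, 2, 4` modulo `7`. -/
lemma x_mod (n : ℕ) : x (n + 1) % 7 = 1 ∨ x (n + 1) % 7 = 2 ∨ x (n + 1) % 7 = 4 := by
  induction n with
  | zero => right; right; decide
  | succ n ih =>
    by_cases h : x (n + 1) % 2 = 1
    · have := two_x_odd h; omega
    · have := two_x_even h; omega

lemma sum_class (a n : ℕ) (ha : 1 ≤ a) (hn : 1 ≤ n) :
    ∑ k ∈ range n, 1 / ((14 * k + a : ℕ) : ℝ) ≤ 1 + 1 / 14 * (1 + Real.log n) := by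
  obtain ⟨m, rfl⟩ : ∃ m, n = m + 1 := ⟨n - 1, by omega⟩
  rw [sum_range_succ']
  have h1 : ∑ k ∈ range m, 1 / ((14 * (k + 1) + a : ℕ) : ℝ) ≤ 1 / 14 * (harmonic m : ℝ) := by
    rw [harmonic, Rat.cast_sum, mul_sum]
    apply sum_le_sum
    intro k _
    push_cast
    have he : (1 / 14 : ℝ) * ((k : ℝ) + 1)⁻¹ = 1 / (14 * ((k : ℝ) + 1)) := by field_simp
    rw [he]
    apply one_div_le_one_div_of_le (by positivity)
    have : (1 : ℝ) ≤ a := by exact_mod_cast ha
    linarith
  have h2 : (harmonic m : ℝ) ≤ 1 + Real.log m := harmonic_le_one_add_log m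
  have h3 : Real.log m ≤ Real.log ((m + 1 : ℕ) : ℝ) := by
    rcases Nat.eq_zero_or_pos m with rfl | hm
    · simp
    · apply Real.log_le_log (by exact_mod_cast hm); push_cast; linarith
  have h4 : 1 / ((14 * 0 + a : ℕ) : ℝ) ≤ 1 := by
    have : (1 : ℝ) ≤ a := by exact_mod_cast ha
    simp only [mul_zero, zero_add]
    rw [div_le_one (by linarith)]; exact this
  linarith


/-- If the terms are distinct, the sum of `1/x_i` over the odd terms is at most
`3/14 log n + 4`. -/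
lemma sum_odd_le (hinj : Function.Injective x) (n : ℕ) (hn : 1 ≤ n) :
    ∑ i ∈ (range n).filter (fun i => x i % 2 = 1), 1 / (x i : ℝ) ≤ 3 / 14 * Real.log n + 4 := by
  set I := (range n).filter (fun i => x i % 2 = 1) with hI
  set A := I.filter (fun i => i ≠ 0 ∧ x i < 14 * n) with hA
  have hn' : (1 : ℝ) ≤ n := by exact_mod_cast hn
  -- the terms outside `A`
  have h1 : ∑ i ∈ I, 1 / (x i : ℝ) ≤
      ∑ i ∈ I, ((if i = 0 then (1 / 3 : ℝ) else 0) + 1 / (14 * (n : ℝ)) +
        (if i ≠ 0 ∧ x i < 14 * n then 1 / (x i : ℝ) else 0)) := by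
    apply sum_le_sum
    intro i _
    have hx : (0 : ℝ) < x i := by exact_mod_cast x_pos i
    by_cases h0 : i = 0
    · subst h0
      rw [x_zero]
      simp only [if_true, ne_eq, not_true_eq_false, false_and, if_false]
      have : (0 : ℝ) ≤ 1 / (14 * (n : ℝ)) := by positivity
      push_cast
      linarith
    · by_cases h2 : x i < 14 * n
      · rw [if_neg h0, if_pos ⟨h0, h2⟩]
        have : (0 : ℝ) ≤ 1 / (14 * (n : ℝ)) := by positivity
        linarith
      · rw [if_neg h0, if_neg (fun h => h2 h.2)]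
        have h3 : (14 * (n : ℝ)) ≤ x i := by exact_mod_cast not_lt.1 h2
        have := one_div_le_one_div_of_le (by positivity) h3
        linarith
  rw [sum_add_distrib, sum_add_distrib] at h1
  have h2 : ∑ i ∈ I, (if i = 0 then (1 / 3 : ℝ) else 0) ≤ 1 / 3 := by
    rw [sum_ite_eq']
    split_ifs <;> norm_num
  have h3 : ∑ i ∈ I, 1 / (14 * (n : ℝ)) ≤ 1 / 14 := by
    rw [sum_const, nsmul_eq_mul]
    have hc : (I.card : ℝ) ≤ n := by
      have : I.card ≤ (range n).card := card_filter_le _ _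
      rw [card_range] at this
      exact_mod_cast this
    have : (I.card : ℝ) * (1 / (14 * (n : ℝ))) ≤ n * (1 / (14 * (n : ℝ))) :=
      mul_le_mul_of_nonneg_right hc (by positivity)
    have he : (n : ℝ) * (1 / (14 * (n : ℝ))) = 1 / 14 := by field_simp
    linarith
  have h4 : ∑ i ∈ I, (if i ≠ 0 ∧ x i < 14 * n then 1 / (x i : ℝ) else 0) =
      ∑ i ∈ A, 1 / (x i : ℝ) := by
    rw [hA]
    exact (sum_filter (s := I) (fun i => i ≠ 0 ∧ x i < 14 * n) (fun i => 1 / (x i : ℝ))).symm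
  -- the terms in `A`, through the pair (quotient, remainder) modulo 14
  have h5 : ∑ i ∈ A, 1 / (x i : ℝ) ≤
      ∑ q ∈ range n ×ˢ ({1, 9, 11} : Finset ℕ), 1 / ((14 * q.1 + q.2 : ℕ) : ℝ) := by
    have hinj' : Set.InjOn (fun i => (x i / 14, x i % 14)) (A : Set ℕ) := by
      intro i _ k _ hik
      apply hinj
      simp only [Prod.mk.injEq] at hik
      omega
    calc ∑ i ∈ A, 1 / (x i : ℝ)
        = ∑ i ∈ A, 1 / ((14 * (x i / 14) + x i % 14 : ℕ) : ℝ) := by
          apply sum_congr rfl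
          intro i _
          rw [Nat.div_add_mod]
      _ = ∑ q ∈ A.image (fun i => (x i / 14, x i % 14)), 1 / ((14 * q.1 + q.2 : ℕ) : ℝ) := by
          rw [sum_image hinj']
      _ ≤ _ := by
          apply sum_le_sum_of_subset_of_nonneg
          · intro q hq
            rw [mem_image] at hq
            obtain ⟨i, hi, rfl⟩ := hq
            rw [hA, mem_filter, hI, mem_filter] at hi
            obtain ⟨⟨_, hodd⟩, h0, hlt⟩ := hi
            obtain ⟨k, rfl⟩ : ∃ k, i = k + 1 := ⟨i - 1, by omega⟩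
            have hm := x_mod k
            rw [mem_product, mem_range]
            refine ⟨by simp only; omega, ?_⟩
            simp only [mem_insert, mem_singleton]
            omega
          · intro q _ _
            positivity
  have h6 : ∑ q ∈ range n ×ˢ ({1, 9, 11} : Finset ℕ), 1 / ((14 * q.1 + q.2 : ℕ) : ℝ) ≤
      3 * (1 + 1 / 14 * (1 + Real.log n)) := by
    rw [sum_product_right]
    rw [sum_insert (by decide), sum_insert (by decide), sum_singleton]
    have a1 := sum_class 1 n le_rfl hn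
    have a2 := sum_class 9 n (by norm_num) hn
    have a3 := sum_class 11 n (by norm_num) hn
    linarith
  rw [h4] at h1
  linarith

/-- The bound in the case of distinct terms. -/
lemma upper (hinj : Function.Injective x) :
    ∃ C : ℝ, 0 < C ∧ ∀ n : ℕ, 1 ≤ n → (x n : ℝ) ≤ C * (n : ℝ) ^ (3 / 98 : ℝ) * r n := by
  refine ⟨3 * Real.exp (4 / 7), by positivity, fun n hn => ?_⟩
  have hn' : (0 : ℝ) < n := by exact_mod_cast hn
  rw [x_eq]
  have h1 := y_le_exp n
  have h2 := sum_odd_le hinj n hn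
  have h3 : Real.exp (1 / 7 * ∑ i ∈ (range n).filter (fun i => x i % 2 = 1), 1 / (x i : ℝ)) ≤
      Real.exp (4 / 7) * (n : ℝ) ^ (3 / 98 : ℝ) := by
    rw [Real.rpow_def_of_pos hn', ← Real.exp_add]
    apply Real.exp_le_exp.2
    linarith
  have h4 : y n ≤ 3 * Real.exp (4 / 7) * (n : ℝ) ^ (3 / 98 : ℝ) := by
    calc y n ≤ _ := h1
      _ ≤ 3 * (Real.exp (4 / 7) * (n : ℝ) ^ (3 / 98 : ℝ)) :=
        mul_le_mul_of_nonneg_left h3 (by norm_num)
      _ = _ := by ring
  calc r n * y n ≤ r n * (3 * Real.exp (4 / 7) * (n : ℝ) ^ (3 / 98 : ℝ)) :=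
        mul_le_mul_of_nonneg_left h4 (r_pos n).le
    _ = _ := by ring

/-! ### The periodic case -/

lemma periodic_of_not_inj (h : ¬ Function.Injective x) :
    ∃ N p : ℕ, 0 < p ∧ ∀ n, N ≤ n → x (n + p) = x n := by
  rw [Function.Injective] at h
  obtain ⟨a, b, hab, hne⟩ : ∃ a b, x a = x b ∧ a ≠ b := by
    by_contra hc
    exact h fun a b hab => by_contra fun hne => hc ⟨a, b, hab, hne⟩
  wlog hlt : a < b generalizing a b with H
  · exact H b a hab.symm hne.symm (by omega)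
  refine ⟨a, b - a, by omega, fun n hn => ?_⟩
  obtain ⟨k, rfl⟩ : ∃ k, n = a + k := ⟨n - a, by omega⟩
  induction k with
  | zero =>
    rw [add_zero, show a + (b - a) = b by omega]; exact hab.symm
  | succ k ih =>
    have := ih (by omega)
    rw [show a + (k + 1) + (b - a) = (a + k + (b - a)) + 1 by omega, x_succ, this,
      show a + (k + 1) = (a + k) + 1 by omega, x_succ]

lemma bounded_of_periodic {N p : ℕ} (hp : 0 < p) (h : ∀ n, N ≤ n → x (n + p) = x n) :
    ∃ B : ℕ, 1 ≤ B ∧ ∀ n, x n ≤ B := by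
  refine ⟨(∑ i ∈ range (N + p), x i) + 1, by omega, fun n => ?_⟩
  induction n using Nat.strong_induction_on with
  | _ n ih =>
    by_cases hn : n < N + p
    · have := single_le_sum (f := x) (fun i _ => Nat.zero_le _) (mem_range.2 hn)
      omega
    · have h1 := h (n - p) (by omega)
      rw [show n - p + p = n by omega] at h1
      rw [h1]
      exact ih (n - p) (by omega)

lemma y_ge_pow {B : ℕ} (hB1 : 1 ≤ B) (hB : ∀ n, x n ≤ B) (n : ℕ) :
    3 * (1 + 1 / (7 * (B : ℝ))) ^ j n ≤ y n := by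
  induction n with
  | zero => rw [y_zero, j_zero]; norm_num
  | succ n ih =>
    by_cases h : x n % 2 = 1
    · rw [y_odd h, j_odd h, pow_succ]
      have hx : (0 : ℝ) < x n := by exact_mod_cast x_pos n
      have hxB : (x n : ℝ) ≤ B := by exact_mod_cast hB n
      have h1 : 1 / (7 * (B : ℝ)) ≤ 1 / (7 * (x n : ℝ)) := by
        apply one_div_le_one_div_of_le <;> linarith
      have hB0 : (0 : ℝ) < B := by exact_mod_cast hB1
      have h3 := y_ge n
      calc 3 * ((1 + 1 / (7 * (B : ℝ))) ^ j n * (1 + 1 / (7 * (B : ℝ))))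
          = 3 * (1 + 1 / (7 * (B : ℝ))) ^ j n * (1 + 1 / (7 * (B : ℝ))) := by ring
        _ ≤ y n * (1 + 1 / (7 * (x n : ℝ))) := by
          apply mul_le_mul ih (by linarith) (by positivity) (by linarith)
    · rw [y_even h, j_even h]; exact ih

lemma decay (h : ¬ Function.Injective x) :
    ∃ C δ : ℝ, 0 < δ ∧ ∀ n : ℕ, r n ≤ C * Real.exp (-δ * n) := by
  obtain ⟨N, p, hp, hper⟩ := periodic_of_not_inj h
  obtain ⟨B, hB1, hB⟩ := bounded_of_periodic hp hper
  have hB0 : (0 : ℝ) < B := by exact_mod_cast hB1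
  set l := Real.log (1 + 1 / (7 * (B : ℝ))) with hl
  have hl0 : 0 < l := Real.log_pos (by have : (0 : ℝ) < 1 / (7 * (B : ℝ)) := by positivity
                                       linarith)
  refine ⟨B / 3 * Real.exp (l / 3), l / 3, by positivity, fun n => ?_⟩
  have h1 := y_ge_pow hB1 hB n
  have h2 : (x n : ℝ) ≤ B := by exact_mod_cast hB n
  rw [x_eq] at h2
  have h3 : Real.exp (l * j n) = (1 + 1 / (7 * (B : ℝ))) ^ j n := by
    rw [mul_comm, Real.exp_nat_mul, hl, Real.exp_log (by positivity)]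
  have h4 : (n : ℝ) ≤ 3 * j n + 1 := by exact_mod_cast n_le n
  have h5 : Real.exp (l / 3 * n - l / 3) ≤ Real.exp (l * j n) := by
    apply Real.exp_le_exp.2
    nlinarith
  have h6 : r n * (3 * Real.exp (l / 3 * n - l / 3)) ≤ B := by
    have h7 : 3 * Real.exp (l / 3 * n - l / 3) ≤ y n := by
      rw [h3] at h5; linarith
    exact (mul_le_mul_of_nonneg_left h7 (r_pos n).le).trans h2
  have h8 : Real.exp (l / 3) * Real.exp (-(l / 3) * n) * Real.exp (l / 3 * n - l / 3) = 1 := by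
    rw [← Real.exp_add, ← Real.exp_add]
    simp only [Real.exp_eq_one_iff]
    ring
  have h9 : 0 < Real.exp (l / 3) * Real.exp (-(l / 3) * n) := by positivity
  calc r n = r n * (Real.exp (l / 3) * Real.exp (-(l / 3) * n) *
        Real.exp (l / 3 * n - l / 3)) := by rw [h8, mul_one]
    _ = (r n * (3 * Real.exp (l / 3 * n - l / 3))) / 3 *
        (Real.exp (l / 3) * Real.exp (-(l / 3) * n)) := by ring
    _ ≤ B / 3 * (Real.exp (l / 3) * Real.exp (-(l / 3) * n)) := by
        apply mul_le_mul_of_nonneg_right _ h9.le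
        linarith
    _ = _ := by ring

lemma inj_iff : Function.Injective x ↔ Tendsto x atTop atTop := by
  constructor
  · intro h
    rw [← Nat.cofinite_eq_atTop]
    exact h.tendsto_cofinite
  · intro h
    by_contra hni
    obtain ⟨N, p, hp, hper⟩ := periodic_of_not_inj hni
    obtain ⟨B, _, hB⟩ := bounded_of_periodic hp hper
    obtain ⟨n, hn⟩ := (h.eventually (eventually_gt_atTop B)).exists
    exact absurd (hB n) (by omega)

/-- An injective sequence of naturals satisfies `x m ≥ m` for arbitrarily large `m`. -/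
lemma often_large (hinj : Function.Injective x) (K : ℕ) : ∃ m, K ≤ m ∧ m ≤ x m := by
  set N := (∑ i ∈ range K, x i) + 1 with hN
  by_contra hcon
  have hlt : ∀ m, K ≤ m → x m < m := fun m hm => by
    by_contra h
    exact hcon ⟨m, hm, by omega⟩
  -- all of `x 0, ..., x (max K N)` are below `max K N`
  set L := max K N with hL
  have hmaps : ∀ m ∈ range (L + 1), x m ∈ range L := by
    intro m hm
    rw [mem_range] at hm ⊢
    by_cases hK : m < K
    · have h1 : x m ≤ ∑ i ∈ range K, x i :=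
        single_le_sum (f := x) (fun i _ => Nat.zero_le _) (mem_range.2 hK)
      have h2 : N ≤ L := le_max_right _ _
      omega
    · have := hlt m (by omega)
      omega
  have hcard := card_le_card_of_injOn x hmaps (hinj.injOn)
  rw [card_range, card_range] at hcard
  omega

/-- `C e^(-δ n)` is below `c n^(-3/98)` for some `n ≥ 1`. -/
lemma exp_lt_pow (C δ c : ℝ) (hδ : 0 < δ) (hc : 0 < c) :
    ∃ n : ℕ, 1 ≤ n ∧ C * Real.exp (-δ * n) < c * (n : ℝ) ^ (-(3 / 98) : ℝ) := by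
  have h1 : Tendsto (fun t : ℝ => t ^ (3 / 98 : ℝ) * Real.exp (-δ * t)) atTop (nhds 0) :=
    tendsto_rpow_mul_exp_neg_mul_atTop_nhds_zero (3 / 98) δ hδ
  have h2 : Tendsto (fun n : ℕ => |C| * ((n : ℝ) ^ (3 / 98 : ℝ) * Real.exp (-δ * n))) atTop
      (nhds 0) := by
    have := (h1.comp tendsto_natCast_atTop_atTop).const_mul |C|
    simpa using this
  obtain ⟨n, hn, hn1⟩ := ((h2.eventually (gt_mem_nhds hc)).and (eventually_ge_atTop 1)).exists
  refine ⟨n, hn1, ?_⟩
  have hn0 : (0 : ℝ) < n := by exact_mod_cast hn1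
  have hp : 0 < (n : ℝ) ^ (3 / 98 : ℝ) := Real.rpow_pos_of_pos hn0 _
  rw [Real.rpow_neg hn0.le, ← div_eq_mul_inv, lt_div_iff₀ hp]
  calc C * Real.exp (-δ * n) * (n : ℝ) ^ (3 / 98 : ℝ)
      ≤ |C| * Real.exp (-δ * n) * (n : ℝ) ^ (3 / 98 : ℝ) := by
        apply mul_le_mul_of_nonneg_right _ hp.le
        exact mul_le_mul_of_nonneg_right (le_abs_self C) (Real.exp_pos _).le
    _ = |C| * ((n : ℝ) ^ (3 / 98 : ℝ) * Real.exp (-δ * n)) := by ring
    _ < c := hn

/-- Let `x_n` be the trajectory of `3` under `F`, `j(n)` the number of odd terms among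
`x_0, ..., x_(n-1)` and `r(n) = 7^(j(n)) / 2^n`.
(1) `n ≤ 3 j(n) + 1` and `3 r(n) ≤ x_n` for all `n`.
(2) If `x_n → ∞`, then there is `C` with `3 r(n) ≤ x_n ≤ C n^(3/98) r(n)` for all `n ≥ 1`.
(3) The following are equivalent: `x_n → ∞`; `r` is unbounded; `r(n) ≥ c n^(-3/98)` for some `c > 0`
and all `n ≥ 1`; `r(n) ≥ c n^(95/98)` for some `c > 0` and infinitely many `n`.
(4) If `x_n` does not tend to infinity, then `r(n) ≤ C e^(-δ n)` for some `C, δ > 0` and all `n`. -/
theorem result :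
    (∀ n : ℕ, n ≤ 3 * j n + 1 ∧ 3 * r n ≤ x n) ∧
    (Tendsto x atTop atTop →
      ∃ C : ℝ, ∀ n : ℕ, 1 ≤ n → (x n : ℝ) ≤ C * (n : ℝ) ^ (3 / 98 : ℝ) * r n) ∧
    (Tendsto x atTop atTop ↔ ∀ M : ℝ, ∃ n : ℕ, M < r n) ∧
    (Tendsto x atTop atTop ↔
      ∃ c : ℝ, 0 < c ∧ ∀ n : ℕ, 1 ≤ n → c * (n : ℝ) ^ (-(3 / 98) : ℝ) ≤ r n) ∧
    (Tendsto x atTop atTop ↔
      ∃ c : ℝ, 0 < c ∧ ∀ K : ℕ, ∃ n : ℕ, K ≤ n ∧ c * (n : ℝ) ^ (95 / 98 : ℝ) ≤ r n) ∧
    (¬ Tendsto x atTop atTop → ∃ C δ : ℝ, 0 < δ ∧ ∀ n : ℕ, r n ≤ C * Real.exp (-δ * n)) := by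
  have hdec : ¬ Tendsto x atTop atTop →
      ∃ C δ : ℝ, 0 < δ ∧ ∀ n : ℕ, r n ≤ C * Real.exp (-δ * n) :=
    fun h => decay fun hi => h (inj_iff.1 hi)
  have hup : Tendsto x atTop atTop →
      ∃ C : ℝ, 0 < C ∧ ∀ n : ℕ, 1 ≤ n → (x n : ℝ) ≤ C * (n : ℝ) ^ (3 / 98 : ℝ) * r n :=
    fun h => upper (inj_iff.2 h)
  -- unbounded implies divergent
  have hunb : (∀ M : ℝ, ∃ n : ℕ, M < r n) → Tendsto x atTop atTop := by
    intro h
    by_contra hn
    obtain ⟨C, δ, hδ, hC⟩ := hdec hn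
    obtain ⟨n, hn⟩ := h |C|
    have h1 := hC n
    have h2 : Real.exp (-δ * n) ≤ 1 := by
      rw [Real.exp_le_one_iff]
      have : (0 : ℝ) ≤ δ * n := by positivity
      linarith
    have h3 : C * Real.exp (-δ * n) ≤ |C| * 1 :=
      mul_le_mul (le_abs_self C) h2 (Real.exp_pos _).le (abs_nonneg C)
    linarith
  -- divergent implies large values
  have hlarge : Tendsto x atTop atTop →
      ∃ c : ℝ, 0 < c ∧ ∀ K : ℕ, ∃ n : ℕ, K ≤ n ∧ c * (n : ℝ) ^ (95 / 98 : ℝ) ≤ r n := by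
    intro h
    obtain ⟨C, hC0, hC⟩ := hup h
    refine ⟨1 / C, by positivity, fun K => ?_⟩
    obtain ⟨m, hm1, hm2⟩ := often_large (inj_iff.2 h) (K + 1)
    refine ⟨m, by omega, ?_⟩
    have hm0 : (0 : ℝ) < m := by exact_mod_cast (by omega : 0 < m)
    have h1 := hC m (by omega)
    have h2 : (m : ℝ) ≤ x m := by exact_mod_cast hm2
    have hp : 0 < (m : ℝ) ^ (3 / 98 : ℝ) := Real.rpow_pos_of_pos hm0 _
    have h3 : (m : ℝ) ^ (95 / 98 : ℝ) * (m : ℝ) ^ (3 / 98 : ℝ) = m := by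
      rw [← Real.rpow_add hm0]; norm_num
    have h4 : (m : ℝ) ^ (95 / 98 : ℝ) * (m : ℝ) ^ (3 / 98 : ℝ) ≤
        (C * r m) * (m : ℝ) ^ (3 / 98 : ℝ) := by rw [h3]; linarith
    have h5 := le_of_mul_le_mul_right h4 hp
    rw [one_div, ← div_eq_inv_mul, div_le_iff₀ hC0]
    linarith
  refine ⟨fun n => ⟨n_le n, three_r_le n⟩, fun h => ?_, ⟨fun h M => ?_, hunb⟩,
    ⟨fun h => ?_, fun h => ?_⟩, ⟨hlarge, fun h => ?_⟩, hdec⟩
  · obtain ⟨C, _, hC⟩ := hup h
    exact ⟨C, hC⟩
  · obtain ⟨c, hc, h1⟩ := hlarge h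
    have h2 : Tendsto (fun n : ℕ => c * (n : ℝ) ^ (95 / 98 : ℝ)) atTop atTop :=
      ((tendsto_rpow_atTop (by norm_num)).comp tendsto_natCast_atTop_atTop).const_mul_atTop hc
    obtain ⟨K, hK⟩ := eventually_atTop.1 (h2.eventually (eventually_gt_atTop M))
    obtain ⟨n, hn1, hn2⟩ := h1 K
    exact ⟨n, (hK n hn1).trans_le hn2⟩
  · obtain ⟨C, hC0, hC⟩ := hup h
    refine ⟨1 / C, by positivity, fun n hn => ?_⟩
    have hn0 : (0 : ℝ) < n := by exact_mod_cast hn
    have h1 := hC n hn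
    have h2 : (1 : ℝ) ≤ x n := by exact_mod_cast x_pos n
    have hp : 0 < (n : ℝ) ^ (3 / 98 : ℝ) := Real.rpow_pos_of_pos hn0 _
    rw [Real.rpow_neg hn0.le, one_div, ← mul_inv, ← one_div, div_le_iff₀ (by positivity)]
    calc (1 : ℝ) ≤ C * (n : ℝ) ^ (3 / 98 : ℝ) * r n := h2.trans h1
      _ = _ := by ring
  · by_contra hn
    obtain ⟨c, hc, h1⟩ := h
    obtain ⟨C, δ, hδ, hC⟩ := hdec hn
    obtain ⟨n, hn1, hn2⟩ := exp_lt_pow C δ c hδ hc
    have := h1 n hn1
    have := hC n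
    linarith
  · apply hunb
    intro M
    obtain ⟨c, hc, h1⟩ := h
    have h2 : Tendsto (fun n : ℕ => c * (n : ℝ) ^ (95 / 98 : ℝ)) atTop atTop :=
      ((tendsto_rpow_atTop (by norm_num)).comp tendsto_natCast_atTop_atTop).const_mul_atTop hc
    obtain ⟨K, hK⟩ := eventually_atTop.1 (h2.eventually (eventually_gt_atTop M))
    obtain ⟨n, hn1, hn2⟩ := h1 K
    exact ⟨n, (hK n hn1).trans_le hn2⟩

end Pool.Agent.Results.MP_625168_nt.Dichotomy
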