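import Mathlib

/-!
# The parity sequence of the trajectory of `3` under `x ↦ (7x+1)/2` (odd), `x ↦ x/2` (even)

`x n` is the trajectory, `j n` the number of odd terms among `x 0, ..., x (n-1)` and `p k` the
number of different words of length `k` in the sequence of the parities.
-/

set_option autoImplicit false

open Filter Finset

namespace Pool.Agent.Results.MP_625168_nt.ParityComplexity

/-- The map `F`: `x ↦ (7x+1)/2` for odd `x`, `x ↦ x/2` for even `x`. -/
def F (x : ℕ) : ℕ := if x % 2 = 1 then (7 * x + 1) / 2 else x / 2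

/-- The trajectory of `3` under `F`. -/
def x (n : ℕ) : ℕ := F^[n] 3

/-- The number of odd terms among `x 0, ..., x (n-1)`. -/
def j (n : ℕ) : ℕ := ((range n).filter fun i => x i % 2 = 1).card

/-- The word of the parities of `x i, ..., x (i+k-1)`. -/
def word (k i : ℕ) : Fin k → Bool := fun t => decide (x (i + t) % 2 = 1)

/-- The number of different words of length `k`. -/
noncomputable def p (k : ℕ) : ℕ := (Set.range (word k)).ncard

lemma x_succ (n : ℕ) : x (n + 1) = F (x n) := Function.iterate_succ_apply' F n 3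

lemma x_add (n t : ℕ) : x (n + t) = F^[t] (x n) := by
  unfold x
  rw [add_comm, Function.iterate_add_apply]

lemma F_pos {z : ℕ} (hz : 0 < z) : 0 < F z := by
  unfold F
  split_ifs with h <;> omega

lemma x_pos (n : ℕ) : 0 < x n := by
  induction n with
  | zero => simp [x]
  | succ n ih => rw [x_succ]; exact F_pos ih

/-! ### Residue classes and words -/

lemma step (k a b : ℕ) : a ≡ b [MOD 2 ^ (k + 1)] ↔ (a % 2 = b % 2 ∧ F a ≡ F b [MOD 2 ^ k]) := by
  have hc : IsCoprime ((2 : ℤ) ^ (k + 1)) 7 := IsCoprime.pow_left (by norm_num)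
  have key : a % 2 = b % 2 → (a ≡ b [MOD 2 ^ (k + 1)] ↔ F a ≡ F b [MOD 2 ^ k]) := by
    intro h
    rw [Nat.modEq_iff_dvd, Nat.modEq_iff_dvd]
    push_cast
    have h2 : ((2 : ℤ) ^ (k + 1)) = 2 * 2 ^ k := by ring
    rcases Nat.mod_two_eq_zero_or_one a with h0 | h1
    · have hb : b % 2 = 0 := by omega
      have ea : (a : ℤ) = 2 * (F a : ℤ) := by
        have : a = 2 * F a := by unfold F; rw [if_neg (by omega)]; omega
        exact_mod_cast this
      have eb : (b : ℤ) = 2 * (F b : ℤ) := by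
        have : b = 2 * F b := by unfold F; rw [if_neg (by omega)]; omega
        exact_mod_cast this
      have e : (b : ℤ) - a = 2 * ((F b : ℤ) - F a) := by rw [mul_sub, ← ea, ← eb]
      rw [e, h2, mul_dvd_mul_iff_left (by norm_num)]
    · have hb : b % 2 = 1 := by omega
      have ea : 7 * (a : ℤ) + 1 = 2 * (F a : ℤ) := by
        have : 7 * a + 1 = 2 * F a := by unfold F; rw [if_pos h1]; omega
        exact_mod_cast this
      have eb : 7 * (b : ℤ) + 1 = 2 * (F b : ℤ) := by
        have : 7 * b + 1 = 2 * F b := by unfold F; rw [if_pos hb]; omega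
        exact_mod_cast this
      have e : 7 * ((b : ℤ) - a) = 2 * ((F b : ℤ) - F a) := by linear_combination eb - ea
      constructor
      · intro hd
        have h3 : (2 : ℤ) * 2 ^ k ∣ 2 * ((F b : ℤ) - F a) := by
          rw [← e, ← h2]
          exact Dvd.dvd.mul_left hd 7
        exact (mul_dvd_mul_iff_left (by norm_num)).1 h3
      · intro hd
        have h3 : (2 : ℤ) ^ (k + 1) ∣ 7 * ((b : ℤ) - a) := by
          rw [e, h2]
          exact mul_dvd_mul_left 2 hd
        exact hc.dvd_of_dvd_mul_left h3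
  constructor
  · intro h
    have h1 : a % 2 = b % 2 := Nat.ModEq.of_dvd (by exact Dvd.intro_left (2 ^ k) (by ring)) h
    exact ⟨h1, (key h1).1 h⟩
  · rintro ⟨h1, h2⟩
    exact (key h1).2 h2

lemma modEq_iff (k : ℕ) : ∀ a b : ℕ, a ≡ b [MOD 2 ^ k] ↔ ∀ t < k, F^[t] a % 2 = F^[t] b % 2 := by
  induction k with
  | zero =>
    intro a b
    simp [Nat.modEq_one]
  | succ k ih =>
    intro a b
    rw [step, ih]
    constructor
    · rintro ⟨h0, h⟩ t ht
      cases t with
      | zero => exact h0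
      | succ t =>
        rw [Function.iterate_succ_apply, Function.iterate_succ_apply]
        exact h t (by omega)
    · intro h
      refine ⟨h 0 (by omega), fun t ht => ?_⟩
      have := h (t + 1) (by omega)
      rwa [Function.iterate_succ_apply, Function.iterate_succ_apply] at this

lemma word_eq_iff (k i i' : ℕ) : word k i = word k i' ↔ x i % 2 ^ k = x i' % 2 ^ k := by
  have h1 : x i % 2 ^ k = x i' % 2 ^ k ↔ x i ≡ x i' [MOD 2 ^ k] := Iff.rfl
  rw [h1, modEq_iff]
  constructor
  · intro h t ht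
    have h2 := congrFun h ⟨t, ht⟩
    simp only [word] at h2
    rw [x_add, x_add] at h2
    have h3 : F^[t] (x i) % 2 = 1 ↔ F^[t] (x i') % 2 = 1 := by simpa using h2
    rcases Nat.mod_two_eq_zero_or_one (F^[t] (x i)) with a | a <;>
      rcases Nat.mod_two_eq_zero_or_one (F^[t] (x i')) with b | b <;> omega
  · intro h
    funext t
    simp only [word]
    rw [x_add, x_add, h t t.2]

/-- The number of words of length `k` is the number of residue classes modulo `2 ^ k` met by the
trajectory. -/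
lemma p_eq (k : ℕ) : p k = (Set.range fun i => x i % 2 ^ k).ncard := by
  have hf : Function.FactorsThrough (fun i => x i % 2 ^ k) (word k) :=
    fun a b h => (word_eq_iff k a b).1 h
  have e : (Set.range fun i => x i % 2 ^ k) =
      Function.extend (word k) (fun i => x i % 2 ^ k) (fun _ => 0) '' Set.range (word k) := by
    rw [← Set.range_comp]
    congr 1
    funext i
    exact (hf.extend_apply _ i).symm
  rw [e, Set.InjOn.ncard_image]
  · rfl
  · rintro _ ⟨a, rfl⟩ _ ⟨b, rfl⟩ h
    rw [hf.extend_apply, hf.extend_apply] at h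
    exact (word_eq_iff k a b).2 h

/-! ### Divergence -/

lemma bdd_of_not_inj (h : ¬ Function.Injective x) : ∃ B : ℕ, ∀ n, x n ≤ B := by
  have h' : ∃ m t : ℕ, 0 < t ∧ x (m + t) = x m := by
    unfold Function.Injective at h
    push Not at h
    obtain ⟨a, b, hab, hne⟩ := h
    rcases Nat.lt_or_gt_of_ne hne with h1 | h1
    · exact ⟨a, b - a, by omega, by rw [Nat.add_sub_cancel' h1.le]; exact hab.symm⟩
    · exact ⟨b, a - b, by omega, by rw [Nat.add_sub_cancel' h1.le]; exact hab⟩
  obtain ⟨m, t, ht, hx⟩ := h'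
  have hper : ∀ s, x (m + t + s) = x (m + s) := by
    intro s
    rw [x_add, hx, ← x_add]
  have hall : ∀ n, ∃ i < m + t, x n = x i := by
    intro n
    induction n using Nat.strong_induction_on with
    | _ n ih =>
      rcases Nat.lt_or_ge n (m + t) with hn | hn
      · exact ⟨n, hn, rfl⟩
      · obtain ⟨s, rfl⟩ := Nat.exists_eq_add_of_le hn
        obtain ⟨i, hi, e⟩ := ih (m + s) (by omega)
        exact ⟨i, hi, (hper s).trans e⟩
  refine ⟨∑ i ∈ range (m + t), x i, fun n => ?_⟩
  obtain ⟨i, hi, e⟩ := hall n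
  rw [e]
  exact single_le_sum (f := x) (fun _ _ => Nat.zero_le _) (mem_range.2 hi)

lemma inj_iff : Function.Injective x ↔ Tendsto x atTop atTop := by
  constructor
  · exact fun h => h.nat_tendsto_atTop
  · intro h
    by_contra hn
    obtain ⟨B, hB⟩ := bdd_of_not_inj hn
    obtain ⟨n, hn⟩ := (h.eventually_gt_atTop B).exists
    exact absurd (hB n) (not_le.2 hn)

/-- Enough small terms give many words. -/
lemma le_p (hx : Function.Injective x) (k N : ℕ) (h : ∀ i < N, x i < 2 ^ k) : N ≤ p k := by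
  rw [p_eq]
  have h1 : ((range N).image x : Set ℕ) ⊆ Set.range fun i => x i % 2 ^ k := by
    intro z hz
    rw [Finset.coe_image] at hz
    obtain ⟨i, hi, rfl⟩ := hz
    exact ⟨i, Nat.mod_eq_of_lt (h i (by simpa using hi))⟩
  have hfin : (Set.range fun i => x i % 2 ^ k).Finite := by
    refine (Set.finite_lt_nat (2 ^ k)).subset ?_
    rintro _ ⟨i, rfl⟩
    exact Nat.mod_lt _ (by positivity)
  have h2 := Set.ncard_le_ncard h1 hfin
  rw [Set.ncard_coe_finset, Finset.card_image_of_injective _ hx, Finset.card_range] at h2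
  exact h2

/-- The terms tend to infinity if and only if the number of words is unbounded. -/
lemma tendsto_iff : Tendsto x atTop atTop ↔ ∀ M : ℕ, ∃ k : ℕ, M < p k := by
  constructor
  · intro h M
    have hx := inj_iff.2 h
    refine ⟨∑ i ∈ range (M + 1), x i, ?_⟩
    have h1 : M + 1 ≤ p (∑ i ∈ range (M + 1), x i) := by
      apply le_p hx
      intro i hi
      calc x i ≤ ∑ i ∈ range (M + 1), x i :=
            single_le_sum (f := x) (fun _ _ => Nat.zero_le _) (mem_range.2 hi)
        _ < 2 ^ (∑ i ∈ range (M + 1), x i) := Nat.lt_two_pow_self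
    omega
  · intro h
    rw [← inj_iff]
    by_contra hn
    obtain ⟨B, hB⟩ := bdd_of_not_inj hn
    obtain ⟨k, hk⟩ := h (B + 1)
    rw [p_eq] at hk
    have h1 : (Set.range fun i => x i % 2 ^ k) ⊆ ((Finset.range (B + 1) : Finset ℕ) : Set ℕ) := by
      rintro _ ⟨i, rfl⟩
      rw [Finset.coe_range]
      exact Nat.lt_succ_of_le ((Nat.mod_le _ _).trans (hB i))
    have h2 := Set.ncard_le_ncard h1 (Finset.finite_toSet _)
    rw [Set.ncard_coe_finset, Finset.card_range] at h2
    omega

/-! ### The size of the terms -/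

lemma j_odd {n : ℕ} (h : x n % 2 = 1) : j (n + 1) = j n + 1 := by
  unfold j
  rw [range_add_one, filter_insert, if_pos h, card_insert_of_notMem (by simp)]

lemma j_even {n : ℕ} (h : ¬ x n % 2 = 1) : j (n + 1) = j n := by
  unfold j
  rw [range_add_one, filter_insert, if_neg h]

/-- `y n = x n * 2 ^ n / 7 ^ (j n)`. -/
noncomputable def y (n : ℕ) : ℝ := (x n : ℝ) * 2 ^ n / 7 ^ j n

lemma y_pos (n : ℕ) : 0 < y n := by
  have : (0 : ℝ) < x n := by exact_mod_cast x_pos n
  unfold y
  positivity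

lemma y_step (n : ℕ) : y n ≤ y (n + 1) ∧ y (n + 1) ≤ y n * (1 + 1 / (7 * (x n : ℝ))) := by
  have hx : (0 : ℝ) < x n := by exact_mod_cast x_pos n
  by_cases h : x n % 2 = 1
  · have h2 : (2 : ℝ) * x (n + 1) = 7 * x n + 1 := by
      have : 2 * x (n + 1) = 7 * x n + 1 := by rw [x_succ, F, if_pos h]; omega
      exact_mod_cast this
    have h3 : (x (n + 1) : ℝ) = (7 * x n + 1) / 2 := by linarith
    have e : y (n + 1) = y n * (1 + 1 / (7 * (x n : ℝ))) := by
      unfold y
      rw [j_odd h, h3]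
      field_simp
      ring
    rw [e]
    refine ⟨?_, le_refl _⟩
    have h4 : (0 : ℝ) ≤ 1 / (7 * (x n : ℝ)) := by positivity
    exact le_mul_of_one_le_right (y_pos n).le (by linarith)
  · have h2 : (2 : ℝ) * x (n + 1) = x n := by
      have : 2 * x (n + 1) = x n := by rw [x_succ, F, if_neg h]; omega
      exact_mod_cast this
    have h3 : (x (n + 1) : ℝ) = x n / 2 := by linarith
    have e : y (n + 1) = y n := by
      unfold y
      rw [j_even h, h3]
      field_simp
      ring
    rw [e]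
    refine ⟨le_refl _, ?_⟩
    have h4 : (0 : ℝ) ≤ 1 / (7 * (x n : ℝ)) := by positivity
    exact le_mul_of_one_le_right (y_pos n).le (by linarith)

lemma y_growth (h : Tendsto x atTop atTop) {q : ℝ} (hq : 1 < q) :
    ∃ C : ℝ, 0 < C ∧ ∀ n, y n ≤ C * q ^ n := by
  obtain ⟨N, hN⟩ := exists_nat_gt (1 / (q - 1))
  obtain ⟨n₀, hn₀⟩ := eventually_atTop.1 (h.eventually_ge_atTop N)
  have hmono : Monotone y := monotone_nat_of_le_succ fun n => (y_step n).1
  refine ⟨y n₀, y_pos n₀, fun n => ?_⟩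
  rcases le_total n n₀ with hle | hge
  · calc y n ≤ y n₀ := hmono hle
      _ ≤ y n₀ * q ^ n := le_mul_of_one_le_right (y_pos n₀).le (one_le_pow₀ hq.le)
  · induction n, hge using Nat.le_induction with
    | base => exact le_mul_of_one_le_right (y_pos n₀).le (one_le_pow₀ hq.le)
    | succ n hn ih =>
      have hx : (0 : ℝ) < x n := by exact_mod_cast x_pos n
      have h1 : (N : ℝ) ≤ x n := by exact_mod_cast hn₀ n hn
      have h2 : 1 / (q - 1) < x n := lt_of_lt_of_le hN h1
      have h3 : 1 / (7 * (x n : ℝ)) ≤ q - 1 := by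
        have h4 : 1 < x n * (q - 1) := (div_lt_iff₀ (by linarith)).1 h2
        rw [div_le_iff₀ (by positivity)]
        nlinarith
      calc y (n + 1) ≤ y n * (1 + 1 / (7 * (x n : ℝ))) := (y_step n).2
        _ ≤ y n * q := mul_le_mul_of_nonneg_left (by linarith) (y_pos n).le
        _ ≤ y n₀ * q ^ n * q := mul_le_mul_of_nonneg_right ih (by linarith)
        _ = y n₀ * q ^ (n + 1) := by ring

/-- Few odd terms give many small terms. -/
lemma growth (h : Tendsto x atTop atTop) {d l : ℝ} (hd : ∀ᶠ n : ℕ in atTop, (j n : ℝ) ≤ d * n)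
    (hl : 0 < l) (hdl : d * Real.logb 2 7 - 1 < l) :
    ∃ K : ℝ, ∀ n : ℕ, (x n : ℝ) ≤ (2 : ℝ) ^ (K + l * n) := by
  obtain ⟨e, he⟩ : ∃ e : ℝ, e = l - (d * Real.logb 2 7 - 1) := ⟨_, rfl⟩
  have he0 : 0 < e := by rw [he]; linarith
  obtain ⟨C, hC, hCy⟩ := y_growth h (q := (2 : ℝ) ^ e)
    (Real.one_lt_rpow (by norm_num) he0)
  obtain ⟨n₁, hn₁⟩ := eventually_atTop.1 hd
  have h27 : (2 : ℝ) ^ (Real.logb 2 7) = 7 := Real.rpow_logb (by norm_num) (by norm_num) (by norm_num)
  have big : ∀ n : ℕ, n₁ ≤ n → (x n : ℝ) ≤ C * (2 : ℝ) ^ (l * n) := by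
    intro n hn
    have h1 := hCy n
    have h2 : (7 : ℝ) ^ (j n) ≤ (2 : ℝ) ^ (Real.logb 2 7 * (d * n)) := by
      have h3 : (7 : ℝ) ^ (j n) = (2 : ℝ) ^ (Real.logb 2 7 * (j n : ℝ)) := by
        rw [Real.rpow_mul (by norm_num), h27, Real.rpow_natCast]
      rw [h3]
      apply Real.rpow_le_rpow_of_exponent_le (by norm_num)
      exact mul_le_mul_of_nonneg_left (hn₁ n hn) (Real.logb_pos (by norm_num) (by norm_num)).le
    have h4 : (x n : ℝ) = y n * 7 ^ (j n) / 2 ^ n := by
      unfold y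
      field_simp
    have h5 : ((2 : ℝ) ^ e) ^ n = (2 : ℝ) ^ (e * n) := by
      rw [← Real.rpow_natCast, ← Real.rpow_mul (by norm_num)]
    have h6 : ((2 : ℝ) ^ n) = (2 : ℝ) ^ (n : ℝ) := (Real.rpow_natCast 2 n).symm
    rw [h4, h6, div_le_iff₀ (by positivity)]
    calc y n * 7 ^ (j n) ≤ (C * ((2 : ℝ) ^ e) ^ n) * (2 : ℝ) ^ (Real.logb 2 7 * (d * n)) :=
          mul_le_mul h1 h2 (by positivity) (by positivity)
      _ = C * (2 : ℝ) ^ (l * n) * (2 : ℝ) ^ (n : ℝ) := by
          rw [h5, mul_assoc, mul_assoc, ← Real.rpow_add (by norm_num), ← Real.rpow_add (by norm_num)]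
          congr 2
          rw [he]
          ring
  obtain ⟨D, hD⟩ : ∃ D : ℝ, D = C + ∑ i ∈ range n₁, (x i : ℝ) := ⟨_, rfl⟩
  have hs : 0 ≤ ∑ i ∈ range n₁, (x i : ℝ) := sum_nonneg fun _ _ => Nat.cast_nonneg _
  have hD0 : 0 < D := by rw [hD]; linarith
  refine ⟨Real.logb 2 D, fun n => ?_⟩
  have hp1 : (1 : ℝ) ≤ (2 : ℝ) ^ (l * n) := Real.one_le_rpow (by norm_num) (by positivity)
  rw [Real.rpow_add (by norm_num), Real.rpow_logb (by norm_num) (by norm_num) hD0]
  rcases Nat.lt_or_ge n n₁ with hn | hn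
  · have h1 : (x n : ℝ) ≤ ∑ i ∈ range n₁, (x i : ℝ) :=
      single_le_sum (f := fun i => (x i : ℝ)) (fun _ _ => Nat.cast_nonneg _) (mem_range.2 hn)
    calc (x n : ℝ) ≤ D := by rw [hD]; linarith
      _ ≤ D * (2 : ℝ) ^ (l * n) := le_mul_of_one_le_right hD0.le hp1
  · refine (big n hn).trans (mul_le_mul_of_nonneg_right ?_ (by positivity))
    rw [hD]
    linarith

/-- Low complexity forces many odd terms. -/
lemma main (h : Tendsto x atTop atTop) {c d : ℝ} (hc : 0 < c)
    (hp : ∃ᶠ k : ℕ in atTop, (p k : ℝ) ≤ c * k) (hd : d < (1 + 1 / c) / Real.logb 2 7) :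
    ∃ᶠ n : ℕ in atTop, d * n < (j n : ℝ) := by
  by_contra hn
  rw [not_frequently] at hn
  have hj : ∀ᶠ n : ℕ in atTop, (j n : ℝ) ≤ d * n := by
    filter_upwards [hn] with n hn
    exact not_lt.1 hn
  have hL : 0 < Real.logb 2 7 := Real.logb_pos (by norm_num) (by norm_num)
  have h1 : d * Real.logb 2 7 - 1 < 1 / c := by
    have := (lt_div_iff₀ hL).1 hd
    linarith
  obtain ⟨l, hl1, hl2⟩ := exists_between (max_lt (one_div_pos.2 hc) h1)
  have hl0 : 0 < l := lt_of_le_of_lt (le_max_left _ _) hl1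
  have hl3 : d * Real.logb 2 7 - 1 < l := lt_of_le_of_lt (le_max_right _ _) hl1
  obtain ⟨K, hK⟩ := growth h hj hl0 hl3
  have hx := inj_iff.2 h
  have hlc : 0 < 1 / l - c := by
    have h2 : c < 1 / l := by
      rw [lt_div_iff₀ hl0]
      have h3 := (lt_div_iff₀ hc).1 hl2
      linarith
    linarith
  -- the lower bound for `p`
  have low : ∀ k : ℕ, (k - K) / l - 1 ≤ (p k : ℝ) := by
    intro k
    rcases le_or_gt ((k - K) / l) 0 with h0 | h0
    · have : (0 : ℝ) ≤ p k := Nat.cast_nonneg _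
      linarith
    · have h2 : ⌊(k - K) / l⌋₊ ≤ p k := by
        apply le_p hx
        intro i hi
        have h3 : (i : ℝ) + 1 ≤ (k - K) / l := by
          have h4 : i + 1 ≤ ⌊(k - K) / l⌋₊ := hi
          have h5 := (Nat.le_floor_iff h0.le).1 h4
          push_cast at h5
          exact h5
        have h4 : K + l * i < k := by
          rw [le_div_iff₀ hl0] at h3
          nlinarith
        have h5 : (x i : ℝ) < (2 : ℝ) ^ (k : ℝ) :=
          lt_of_le_of_lt (hK i) (Real.rpow_lt_rpow_of_exponent_lt (by norm_num) h4)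
        rw [Real.rpow_natCast] at h5
        exact_mod_cast h5
      have h3 : (k - K) / l < ⌊(k - K) / l⌋₊ + 1 := Nat.lt_floor_add_one _
      have h4 : ((⌊(k - K) / l⌋₊ : ℕ) : ℝ) ≤ p k := by exact_mod_cast h2
      linarith
  obtain ⟨k₀, hk₀⟩ := exists_nat_gt ((K / l + 1) / (1 / l - c))
  obtain ⟨k, hk, hpk⟩ := (frequently_atTop.1 hp) k₀
  have h2 := low k
  have h3 : (K / l + 1) / (1 / l - c) < k := lt_of_lt_of_le hk₀ (by exact_mod_cast hk)
  rw [div_lt_iff₀ hlc] at h3
  have h4 : ((k : ℝ) - K) / l = k * (1 / l) - K / l := by ring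
  rw [h4] at h2
  have h5 : (k : ℝ) * (1 / l - c) = k * (1 / l) - c * k := by ring
  rw [h5] at h3
  linarith

/-- The number of different words of length `k` in the tail `x m, x (m+1), ...`. -/
noncomputable def pt (m k : ℕ) : ℕ := (Set.range fun i => word k (m + i)).ncard

lemma pt_le_p (m k : ℕ) : pt m k ≤ p k := by
  apply Set.ncard_le_ncard _ (Set.toFinite _)
  rintro _ ⟨i, rfl⟩
  exact ⟨m + i, rfl⟩

lemma p_le_pt (m k : ℕ) : p k ≤ pt m k + m := by
  classical
  have e : Set.range (word k) ⊆ (Set.range fun i => word k (m + i)) ∪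
      (((Finset.range m).image (word k) : Finset (Fin k → Bool)) : Set (Fin k → Bool)) := by
    rintro _ ⟨i, rfl⟩
    rcases Nat.lt_or_ge i m with h | h
    · right
      rw [Finset.mem_coe]
      exact mem_image_of_mem _ (mem_range.2 h)
    · left
      exact ⟨i - m, by simp only; rw [Nat.add_sub_cancel' h]⟩
  refine (Set.ncard_le_ncard e (Set.toFinite _)).trans ((Set.ncard_union_le _ _).trans ?_)
  rw [Set.ncard_coe_finset]
  exact Nat.add_le_add_left (Finset.card_image_le.trans_eq (card_range m)) _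

/-- Low complexity of a tail forces many odd terms. -/
lemma main_tail (h : Tendsto x atTop atTop) {c d : ℝ} (hc : 0 < c) (m : ℕ)
    (hp : ∃ᶠ k : ℕ in atTop, (pt m k : ℝ) ≤ c * k) (hd : d < (1 + 1 / c) / Real.logb 2 7) :
    ∃ᶠ n : ℕ in atTop, d * n < (j n : ℝ) := by
  have hL : 0 < Real.logb 2 7 := Real.logb_pos (by norm_num) (by norm_num)
  obtain ⟨s, hs⟩ : ∃ s : ℝ, s = d * Real.logb 2 7 - 1 := ⟨_, rfl⟩
  have hs1 : s < 1 / c := by
    have := (lt_div_iff₀ hL).1 hd
    rw [hs]
    linarith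
  obtain ⟨c', h1, h2⟩ : ∃ c' : ℝ, c < c' ∧ s * c' < 1 := by
    rcases le_or_gt s 0 with h0 | h0
    · exact ⟨c + 1, by linarith, by nlinarith⟩
    · have h3 : c < 1 / s := by
        rw [lt_div_iff₀ h0]
        have := (lt_div_iff₀ hc).1 hs1
        linarith
      obtain ⟨c', h4, h5⟩ := exists_between h3
      refine ⟨c', h4, ?_⟩
      have := (lt_div_iff₀ h0).1 h5
      linarith
  have hc' : 0 < c' := hc.trans h1
  have hdc : d < (1 + 1 / c') / Real.logb 2 7 := by
    rw [lt_div_iff₀ hL]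
    have h1 : s < 1 / c' := (lt_div_iff₀ hc').2 h2
    linarith
  refine main h hc' ?_ hdc
  obtain ⟨N, hN⟩ := exists_nat_gt ((m : ℝ) / (c' - c))
  refine (hp.and_eventually (eventually_ge_atTop N)).mono ?_
  rintro k ⟨hk1, hk2⟩
  have h3 : (p k : ℝ) ≤ pt m k + m := by exact_mod_cast p_le_pt m k
  have h4 : (m : ℝ) / (c' - c) < k := lt_of_lt_of_le hN (by exact_mod_cast hk2)
  rw [div_lt_iff₀ (by linarith)] at h4
  linarith

/-- If at most `d n` of the first `n` terms are odd (for all large `n`) then either the trajectory and the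
number of words are bounded, or the trajectory tends to infinity and every tail of it has more than
`c k` parity words of length `k` for all large `k`. -/
theorem result (m : ℕ) (c d : ℝ) (hc : 0 < c) (hd : d < (1 + 1 / c) / Real.logb 2 7)
    (hj : ∀ᶠ n : ℕ in atTop, (j n : ℝ) ≤ d * n) :
    ((∃ B : ℕ, ∀ n, x n ≤ B) ∧ ∃ B : ℕ, ∀ k, pt m k ≤ B) ∨
      (Tendsto x atTop atTop ∧ ∀ᶠ k : ℕ in atTop, c * k < (pt m k : ℝ)) := by
  by_cases h : Function.Injective x
  · right
    refine ⟨inj_iff.1 h, ?_⟩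
    by_contra hn
    rw [not_eventually] at hn
    have h1 := main_tail (inj_iff.1 h) hc m (hn.mono fun k hk => not_lt.1 hk) hd
    obtain ⟨n, hn1, hn2⟩ := (h1.and_eventually hj).exists
    linarith
  · left
    refine ⟨bdd_of_not_inj h, ?_⟩
    have h1 : ¬ ∀ M : ℕ, ∃ k : ℕ, M < p k := fun h' => h (inj_iff.2 (tendsto_iff.2 h'))
    push Not at h1
    obtain ⟨M, hM⟩ := h1
    exact ⟨M, fun k => (pt_le_p m k).trans (hM k)⟩

end Pool.Agent.Results.MP_625168_nt.ParityComplexity
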